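import Pool.Agent.Work.MP_1ce82a_an.J.JacT
import Pool.Agent.Work.MP_1ce82a_an.A.Lsc

-- merged part: Pool.Agent.Work.MP_1ce82a_an.B.Lax
section
/-! The Lax-Oleinik operator.
PLAN. The defining set is nonempty (constant path) and bounded below by w x (domination). lax_dom: given a path y on [a,b] and an almost optimal path z ending at y a,
concatenate (total time s + (b-a)) and drop the initial time b-a using domination of w. lax_min: for an eps-optimal path and -s <= s1 <= t1 <= 0 with both points in the ball,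
replace the piece by the segment of Cls.seg in time max (t1-s1) |z t1 - z s1| and drop the excess time at the beginning (domination of w); this gives the hypothesis of near_stay
and near_in with B = La 1; then an ultrafilter limit and lsc (w is Lipschitz on the ball). -/

open Set Filter Topology MeasureTheory
open scoped ContDiff

namespace Pool.Agent.Work.MP_1ce82a_an

variable {Γ : Grp}

theorem Lax_ne (F : E × E → ℝ) (w : E → ℝ) {s : ℝ} (hs : 0 ≤ s) (x : E) :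
    {r | ∃ z : ℝ → E, IsPath z (-s) 0 ∧ z 0 = x ∧ r = w (z (-s)) + act F z (-s) 0}.Nonempty :=
  ⟨_, fun _ => x, ⟨by linarith only [hs], 0, (LipschitzWith.const x).lipschitzOnWith⟩, rfl, rfl⟩

theorem Lax_low {F : E × E → ℝ} {w : E → ℝ} (hw : Dom F w) {s : ℝ} (x : E) :
    w x ∈ lowerBounds
      {r | ∃ z : ℝ → E, IsPath z (-s) 0 ∧ z 0 = x ∧ r = w (z (-s)) + act F z (-s) 0} := by
  rintro _ ⟨z, hz, rfl, rfl⟩
  linarith only [hw, hz, hw z _ _ hz]

theorem lax_le {F : E × E → ℝ} {w : E → ℝ} (hw : Dom F w) {s : ℝ} {z : ℝ → E}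
    (hz : IsPath z (-s) 0) : lax F s w (z 0) ≤ w (z (-s)) + act F z (-s) 0 := by
  exact csInf_le ⟨_, Lax_low hw _⟩ ⟨z, hz, rfl, rfl⟩

theorem le_lax {F : E × E → ℝ} {w : E → ℝ} (hw : Dom F w) {s : ℝ} (hs : 0 ≤ s) (x : E) :
    w x ≤ lax F s w x := by
  exact le_csInf (Lax_ne F w hs x) (Lax_low hw x)

theorem lax_near {F : E × E → ℝ} (w : E → ℝ) {s : ℝ} (hs : 0 ≤ s) (x : E) {ε : ℝ} (hε : 0 < ε) :
    ∃ z : ℝ → E, IsPath z (-s) 0 ∧ z 0 = x ∧ w (z (-s)) + act F z (-s) 0 ≤ lax F s w x + ε := by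
  obtain ⟨_, ⟨z, hz, h0, rfl⟩, h⟩ := Real.lt_sInf_add_pos (Lax_ne F w hs x) hε
  exact ⟨z, hz, h0, h.le⟩

theorem Lax_long {F : E × E → ℝ} (hF : Continuous F) {w : E → ℝ} (hw : Dom F w) {s : ℝ}
    (hs : 0 ≤ s) {z : ℝ → E} {a b : ℝ} (hz : IsPath z a b) (hab : a ≤ -s + b) :
    lax F s w (z b) ≤ w (z a) + act F z a b := by
  have hb : -s + b ≤ b := by linarith
  have h1 := lax_le hw (IsPath.shift (a := -s) (b := 0) b
    (hz.mono hab (by linarith) (by linarith)))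
  rw [act_shift] at h1
  simp only [zero_add] at h1
  have h2 := hw z _ _ (hz.mono le_rfl hab hb)
  have h3 := act_add hF hz hab hb
  linarith only [h1, h2, h3]

theorem lax_dom {F : E × E → ℝ} (hF : Continuous F) {w : E → ℝ} (hw : Dom F w) {s : ℝ}
    (hs : 0 ≤ s) : Dom F (lax F s w) := by
  intro y a b hy
  rw [sub_le_iff_le_add]
  refine le_of_forall_pos_le_add fun ε hε => ?_
  obtain ⟨z, hz, h0, h⟩ := lax_near (F := F) w hs (y a) hε
  have e1 : -s + a + -a = -s := by ring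
  have e2 : a + -a = 0 := by ring
  have hz' : IsPath (fun r => z (r + -a)) (-s + a) a := IsPath.shift (-a) (by rwa [e1, e2])
  have he : (fun r => z (r + -a)) a = y a := by simp only [e2, h0]
  have h1 := Lax_long hF hw hs (hz'.cat hy he) (by linarith only [hy, hy.1])
  rw [act_cat hF hz' hy he, act_shift, cat_left _ y (-s + a) a (left_mem_Icc.2 hz'.1),
    cat_right he b (right_mem_Icc.2 hy.1)] at h1
  simp only [e1, e2] at h1
  linarith

theorem lax_eqv (hS : Surf Γ) {F : E × E → ℝ} (hF : InvL Γ F) {c : H1 Γ} {w : E → ℝ}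
    (hw : InS F c w) {s : ℝ} (hs : 0 ≤ s) : Eqv c (lax F s w) := by
  have key : ∀ (γ : Γ) (x : E), lax F s w (γ • x) ≤ lax F s w x + c.1 γ := by
    intro γ x
    refine le_of_forall_pos_le_add fun ε hε => ?_
    obtain ⟨z, hz, h0, h⟩ := lax_near (F := F) w hs x hε
    have h1 := lax_le hw.2 (hz.smul hS γ)
    rw [act_smul hS hF] at h1
    simp only [h0, hw.1 γ] at h1
    linarith only [h, h1]
  intro γ x
  refine le_antisymm (key γ x) ?_
  have h1 := key γ⁻¹ (γ • x)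
  rw [inv_smul_smul, H1.map_inv] at h1
  linarith

theorem Lax_hyp {m : Md} {R : ℝ} {F : E × E → ℝ} (hF : Cls m R F) {w : E → ℝ} (hw : Dom F w)
    {s ε : ℝ} (hs : 0 ≤ s) {z : ℝ → E} (hz : IsPath z (-s) 0)
    (h : w (z (-s)) + act F z (-s) 0 ≤ lax F s w (z 0) + ε) :
    ∀ s1 t1, -s ≤ s1 → s1 ≤ t1 → t1 ≤ 0 → ‖z s1‖ ≤ R → ‖z t1‖ ≤ R →
      act F z s1 t1 ≤ m.La 1 * ‖z t1 - z s1‖ + m.La 1 * (t1 - s1) + ε := by
  intro s1 t1 h1 h2 h3 h4 h5
  obtain ⟨l, hl⟩ : ∃ l, l = ‖z t1 - z s1‖ := ⟨_, rfl⟩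
  have hl0 : 0 ≤ l := hl ▸ norm_nonneg _
  obtain ⟨g, hg, g1, g2, g3⟩ := hF.seg h4 h5 (a := s1 - l) (b := t1) (by linarith only [h2, hl])
  have e1 : -s - l + l = -s := by ring
  have e2 : s1 - l + l = s1 := by ring
  have p1 : IsPath (fun r => z (r + l)) (-s - l) (s1 - l) :=
    IsPath.shift l (by rw [e1, e2]; exact hz.mono le_rfl h1 (h2.trans h3))
  have c1 : (fun r => z (r + l)) (s1 - l) = g (s1 - l) := by simp only [e2, g1]
  have p2 := p1.cat hg c1
  have p3 : IsPath z t1 0 := hz.mono (h1.trans h2) h3 le_rfl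
  have c2 : cat (fun r => z (r + l)) g (s1 - l) t1 = z t1 :=
    (cat_right c1 t1 (right_mem_Icc.2 hg.1)).trans g2
  have h6 := Lax_long hF.cont hw hs (p2.cat p3 c2) (by linarith only [hl0])
  rw [act_cat hF.cont p2 p3 c2, act_cat hF.cont p1 hg c1, act_shift,
    cat_left _ z (-s - l) t1 (left_mem_Icc.2 p2.1), cat_left _ g (-s - l) _ (left_mem_Icc.2 p1.1),
    cat_right c2 0 (right_mem_Icc.2 h3)] at h6
  simp only [e1, e2] at h6
  have h7 := act_add hF.cont hz (h1.trans h2) h3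
  have h8 := act_add hF.cont (hz.mono le_rfl (h1.trans h2) h3) h1 h2
  have h9 := (abs_le.1 g3).2
  rw [← hl]
  linarith only [h, h6, h7, h8, h9]

theorem lax_min (m : Md) : ∃ K s0 : ℝ, 0 ≤ K ∧ 0 < s0 ∧ s0 ≤ 1 ∧
    ∀ (R : ℝ) (F : E × E → ℝ) (w : E → ℝ) (s : ℝ) (x : E), Cls m (R + 1) F → Dom F w → 0 < s →
      s ≤ s0 → ‖x‖ ≤ R → ∃ z : ℝ → E, LipschitzOnWith K.toNNReal z (Icc (-s) 0) ∧ z 0 = x ∧
        (∀ t ∈ Icc (-s) 0, ‖z t - x‖ ≤ 1 / 2) ∧ lax F s w x = w (z (-s)) + act F z (-s) 0 := by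
  have hK := kap_nonneg m (m.La_nonneg 1)
  refine ⟨kap m (m.La 1), min 1 (1 / (4 * (kap m (m.La 1) + 1))), hK,
    lt_min one_pos (by positivity), min_le_left _ _, fun R F w s x hF hw hs hs0 hx => ?_⟩
  have hKs : kap m (m.La 1) * (0 - -s) ≤ 1 / 4 := by
    have h1 := hs0.trans (min_le_right _ _)
    rw [le_div_iff₀ (by positivity)] at h1
    linarith only [hs, h1]
  have hex : ∀ ε : ℝ, ∃ z : ℝ → E, 0 < ε → ε < 1 / 4 → IsPath z (-s) 0 ∧ z 0 = x ∧
      w (z (-s)) + act F z (-s) 0 ≤ lax F s w x + ε ∧ (∀ t ∈ Icc (-s) 0, ‖z t - x‖ ≤ 1 / 2) ∧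
      (∀ t ∈ Icc (-s) 0, ‖z t‖ ≤ R + 1) ∧ ∀ r ∈ Icc (-s) 0, ∀ t ∈ Icc (-s) 0,
        ‖z t - z r‖ ≤ kap m (m.La 1) * |t - r| + ε := by
    intro ε
    by_cases hε : 0 < ε
    swap
    · exact ⟨fun _ => x, fun h => absurd h hε⟩
    obtain ⟨z, hz, rfl, h⟩ := lax_near (F := F) w hs.le x hε
    refine ⟨z, fun _ hε' => ?_⟩
    have h1 := Lax_hyp hF hw hs.le hz h
    have h2 := near_stay hF hz (ρ := 1 / 2) (right_mem_Icc.2 hz.1) (m.La_nonneg 1) hε.le
      (by linarith only [hε, hx, hε']) (by linarith only [hKs, hε']) h1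
    have h3 : ∀ t ∈ Icc (-s) 0, ‖z t‖ ≤ R + 1 := fun t ht => by
      have := norm_add_le (z t - z 0) (z 0)
      rw [sub_add_cancel] at this
      linarith only [hε, hx, hε', this, h2, ht, h2 t ht]
    exact ⟨hz, rfl, h, h2, h3, near_in hF hz h3 h1⟩
  choose z hz using hex
  let U : Ultrafilter ℝ := Ultrafilter.of (𝓝[>] 0)
  have hU : ∀ δ : ℝ, 0 < δ → ∀ᶠ ε in (U : Filter ℝ), 0 < ε ∧ ε < 1 / 4 ∧ ε < δ := fun δ hδ =>
    Ultrafilter.of_le (𝓝[>] (0 : ℝ)) (by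
      filter_upwards [Ioo_mem_nhdsGT (lt_min (show (0 : ℝ) < 1 / 4 by norm_num) hδ)] with ε hε
      exact ⟨hε.1, (lt_min_iff.1 hε.2).1, (lt_min_iff.1 hε.2).2⟩)
  have hy : ∀ t ∈ Icc (-s) 0, Tendsto (fun ε => z ε t) (U : Filter ℝ) (𝓝 (ulim U z t)) :=
    fun t ht => tendsto_ulim U ((hU 1 one_pos).mono fun ε h => (hz ε h.1 h.2.1).2.2.2.2.1 t ht)
  have hm : -s ∈ Icc (-s) 0 := left_mem_Icc.2 (by linarith only [hs])
  have h0 : ulim U z 0 = x := tendsto_nhds_unique (hy 0 (right_mem_Icc.2 hm.2))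
    (tendsto_const_nhds.congr' ((hU 1 one_pos).mono fun ε h => (hz ε h.1 h.2.1).2.1.symm))
  have hyR : ‖ulim U z (-s)‖ ≤ R + 1 := le_of_tendsto (hy _ hm).norm
    ((hU 1 one_pos).mono fun ε h => (hz ε h.1 h.2.1).2.2.2.2.1 _ hm)
  have hw' : Tendsto (fun ε => m.La 1 * ‖ulim U z (-s) - z ε (-s)‖) (U : Filter ℝ) (𝓝 0) := by
    have := ((tendsto_const_nhds (x := ulim U z (-s))).sub (hy _ hm)).norm.const_mul (m.La 1)
    simpa using this
  obtain ⟨l1, l2, l3⟩ := lsc (l := (U : Filter ℝ)) hF (z := z) (y := ulim U z)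
    (A := lax F s w x - w (ulim U z (-s))) hK hm.2 (fun δ hδ => by
      filter_upwards [hU (δ / 2) (half_pos hδ), hw'.eventually (gt_mem_nhds (half_pos hδ))]
        with ε h h'
      obtain ⟨a1, -, a3, -, a5, a6⟩ := hz ε h.1 h.2.1
      refine ⟨a1, a5, fun r hr t ht => (a6 r hr t ht).trans (by linarith only [h, h.2.2]), ?_⟩
      have := (abs_le.1 (Dom.lip hF hw hyR (a5 _ hm))).2
      linarith only [h, h', a3, this, h.2.2]) hy
  refine ⟨ulim U z, lip_of_le l1, h0, fun t ht => le_of_tendsto ((hy t ht).sub_const x).norm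
    ((hU 1 one_pos).mono fun ε h => (hz ε h.1 h.2.1).2.2.2.1 t ht), le_antisymm ?_ (by linarith only [l3])⟩
  rw [← h0]
  exact lax_le hw l2

end Pool.Agent.Work.MP_1ce82a_an
end

-- merged part: Pool.Agent.Work.MP_1ce82a_an.B.C1
section
/-! Existence of continuously differentiable critical subsolutions.
PLAN. lax_sup: lax_min, then lax_le for aff z (-s) 0 0 (y-x), mod_le and fv_lin. lax_mid: minimisers z+ and z- for x+h and x-h, the midpoint path ends at x;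
with d = (z+ - z-)/2 use lax_le, the hypothesis on w at time -s, Cls.second_diff under the integral (almost everywhere the phase point of the midpoint path is the midpoint) and
|d t|^2 <= 2|h|^2 + 2 s (integral of |d'|^2) (norm_sub_le and Cauchy-Schwarz). exists_isSub: w = - lax (revL F) t (-u) is dominated (Dom.rev twice, lax_dom), equivariant (class -c), and has
subdifferentials with quadratic error on the ball of radius R0+2, so it satisfies the midpoint hypothesis; z = lax F s w has two sided quadratic expansions on the open ball of radius R0+1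
(upper from lax_sup, lower from the upper one at the reflected point and lax_mid), contDiffOn_of_quad; equivariance spreads C^1 to the plane; Dom.le_of_hasFDerivAt. -/

open Set Filter Topology MeasureTheory
open scoped ContDiff

namespace Pool.Agent.Work.MP_1ce82a_an

variable {Γ : Grp}

theorem lax_sup (m : Md) : ∃ s0 : ℝ, 0 < s0 ∧ ∀ s : ℝ, 0 < s → s ≤ s0 → ∃ C : ℝ, 0 ≤ C ∧
    ∀ (R : ℝ) (F : E × E → ℝ) (w : E → ℝ) (x : E), Cls m (R + 2) F → Dom F w → ‖x‖ ≤ R →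
      ∃ p : E →L[ℝ] ℝ, ∀ y, ‖y - x‖ ≤ 1 →
        lax F s w y ≤ lax F s w x + p (y - x) + C * ‖y - x‖ ^ 2 := by
  obtain ⟨K, s0, hK, hs0, hs1, H⟩ := lax_min m
  refine ⟨s0, hs0, fun s hs hss => ?_⟩
  obtain ⟨C, hC, HC⟩ := mod_le m K s s hs
  refine ⟨C, hC, fun R F w x hF hw hx => ?_⟩
  obtain ⟨z, hzl, hz0, hzn, hze⟩ := H R F w s x (hF.mono (by linarith only [])) hw hs hss hx
  have hp : IsPath z (-s) 0 := ⟨by linarith, _, hzl⟩
  obtain ⟨P0, P1, hP⟩ := fv_lin hF.c2 hp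
  refine ⟨P1, fun y hy => ?_⟩
  have hlt : -s < 0 := by linarith
  have hin : ∀ t ∈ Icc (-s) 0, ‖z t‖ ≤ R + 1 := by
    intro t ht
    have h1 := hzn t ht
    have h2 : ‖z t‖ ≤ ‖z t - x‖ + ‖x‖ := by
      simpa using norm_add_le (z t - x) x
    linarith only [hx, h1, h2]
  have h1 := HC (R + 1) F z (-s) 0 (hF.mono (by linarith)) (by linarith) (by linarith) hzl hin
    0 (y - x) (by simp) hy
  have h2 := lax_le hw (s := s) (hp.aff 0 (y - x))
  rw [aff_right z hlt, aff_left z hlt, hz0, add_zero, add_sub_cancel] at h2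
  rw [hP, map_zero, zero_add, norm_zero] at h1
  rw [hze]
  have h3 : C * ((0 : ℝ) ^ 2 + ‖y - x‖ ^ 2) = C * ‖y - x‖ ^ 2 := by ring
  linarith only [h1, h2]

theorem C1_cs {f : ℝ → ℝ} {a b : ℝ} (hab : a < b) (h1 : IntervalIntegrable f volume a b)
    (h2 : IntervalIntegrable (fun t => f t ^ 2) volume a b) :
    (∫ t in a..b, f t) ^ 2 ≤ (b - a) * ∫ t in a..b, f t ^ 2 := by
  set J := ∫ t in a..b, f t with hJ
  set I := ∫ t in a..b, f t ^ 2 with hI
  have hd : 0 < b - a := by linarith only [hab]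
  set c := J / (b - a) with hc
  have h0 : 0 ≤ ∫ t in a..b, (f t ^ 2 - 2 * c * f t + c ^ 2) := by
    refine intervalIntegral.integral_nonneg hab.le fun t _ => ?_
    have : f t ^ 2 - 2 * c * f t + c ^ 2 = (f t - c) ^ 2 := by ring
    rw [this]; positivity
  rw [intervalIntegral.integral_add (h2.sub (h1.const_mul _)) intervalIntegrable_const,
    intervalIntegral.integral_sub h2 (h1.const_mul _), intervalIntegral.integral_const_mul,
    intervalIntegral.integral_const, ← hJ, ← hI, smul_eq_mul] at h0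
  have hcJ : J = c * (b - a) := by rw [hc]; field_simp
  have h3 : 0 ≤ (b - a) * (I - 2 * c * J + (b - a) * c ^ 2) := mul_nonneg hd.le h0
  have h4 : (b - a) * (I - 2 * c * J + (b - a) * c ^ 2) = (b - a) * I - J ^ 2 := by
    rw [hcJ]; ring
  linarith only [h3, h4]

theorem C1_path_comb {z y : ℝ → E} {a b : ℝ} (hz : IsPath z a b) (hy : IsPath y a b) (p q : ℝ) :
    IsPath (fun t => p • z t + q • y t) a b := by
  obtain ⟨hab, K, hK⟩ := hz
  obtain ⟨-, L, hL⟩ := hy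
  refine ⟨hab, ‖p‖₊ * K + ‖q‖₊ * L, ?_⟩
  refine LipschitzOnWith.of_dist_le_mul fun s hs t ht => ?_
  have h1 := hK.dist_le_mul s hs t ht
  have h2 := hL.dist_le_mul s hs t ht
  rw [dist_eq_norm] at h1 h2 ⊢
  have h3 : p • z s + q • y s - (p • z t + q • y t) = p • (z s - z t) + q • (y s - y t) := by
    rw [smul_sub, smul_sub]; abel
  rw [h3]
  refine (norm_add_le _ _).trans ?_
  rw [norm_smul, norm_smul]
  push_cast
  have h4 := mul_le_mul_of_nonneg_left h1 (norm_nonneg p)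
  have h5 := mul_le_mul_of_nonneg_left h2 (norm_nonneg q)
  linarith only [h4, h5]

theorem C1_mono_ae {f g : ℝ → ℝ} {a b : ℝ} (hab : a ≤ b) (hf : IntervalIntegrable f volume a b)
    (hg : IntervalIntegrable g volume a b) (h : ∀ᵐ t, t ∈ Ioo a b → f t ≤ g t) :
    ∫ t in a..b, f t ≤ ∫ t in a..b, g t := by
  refine intervalIntegral.integral_mono_ae_restrict hab hf hg ?_
  rw [← Measure.restrict_congr_set Ioo_ae_eq_Icc]
  exact (ae_restrict_iff' measurableSet_Ioo).2 h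

/-- The distance of two paths is controlled by the terminal distance and the energy of the
difference. -/
theorem C1_dist {e : ℝ → E} {s : ℝ} (hs : 0 < s) (he : IsPath e (-s) 0) {t : ℝ}
    (ht : t ∈ Icc (-s) 0) :
    ‖e t‖ ^ 2 ≤ 2 * ‖e 0‖ ^ 2 + 2 * (s * ∫ r in (-s)..0, ‖deriv e r‖ ^ 2) := by
  have hi1 : IntervalIntegrable (fun r => ‖deriv e r‖) volume (-s) 0 :=
    he.intervalIntegrable (Φ := fun p : ℝ × (E × E) => ‖p.2.2‖) (by fun_prop)
  have hi2 : IntervalIntegrable (fun r => ‖deriv e r‖ ^ 2) volume (-s) 0 :=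
    he.intervalIntegrable (Φ := fun p : ℝ × (E × E) => ‖p.2.2‖ ^ 2) (by fun_prop)
  have h1 := (he.mono ht.1 ht.2 le_rfl).norm_sub_le
  have h2 : ∫ r in t..0, ‖deriv e r‖ ≤ ∫ r in (-s)..0, ‖deriv e r‖ :=
    intervalIntegral.integral_mono_interval ht.1 ht.2 le_rfl
      (Eventually.of_forall fun r => norm_nonneg _) hi1
  have h3 := C1_cs (by linarith only [hs] : -s < 0) hi1 hi2
  have h4 : ‖e t‖ ≤ ‖e 0‖ + ‖e 0 - e t‖ := by
    have : e t = e 0 - (e 0 - e t) := by abel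
    calc ‖e t‖ = ‖e 0 - (e 0 - e t)‖ := by rw [← this]
      _ ≤ _ := norm_sub_le _ _
  set J := ∫ r in (-s)..0, ‖deriv e r‖
  have h5 : ‖e t‖ ≤ ‖e 0‖ + J := by linarith only [h1, h4, h2]
  have h6 : ‖e t‖ ^ 2 ≤ (‖e 0‖ + J) ^ 2 := pow_le_pow_left₀ (norm_nonneg _) h5 2
  have h7 : (0 : ℝ) - -s = s := by ring
  rw [h7] at h3
  linarith only [h3, h6, sq_nonneg (‖e 0‖ - J), sq_nonneg (‖e (0 : ℝ)‖ - J)]

theorem lax_mid (m : Md) (C0 : ℝ) (hC0 : 0 ≤ C0) : ∃ s1 C : ℝ, 0 < s1 ∧ 0 ≤ C ∧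
    ∀ (s R : ℝ) (F : E × E → ℝ) (w : E → ℝ), 0 < s → s ≤ s1 → Cls m (R + 2) F → Dom F w →
      (∀ y d : E, ‖y‖ ≤ R + 1 → ‖d‖ ≤ 1 → -(C0 * ‖d‖ ^ 2) ≤ w (y + d) + w (y - d) - 2 * w y) →
      ∀ x h : E, ‖x‖ ≤ R → ‖h‖ ≤ 1 / 4 →
        -(C * ‖h‖ ^ 2) ≤ lax F s w (x + h) + lax F s w (x - h) - 2 * lax F s w x := by
  obtain ⟨K, s0, hK, hs0, hs1, H⟩ := lax_min m
  obtain ⟨C1, hC1, HC⟩ := Cls.second_diff m K
  have hμ := m.mu_pos K
  have hD : 0 < C0 / 2 + 2 * C1 + 1 := by positivity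
  refine ⟨min s0 (m.mu K / 8 / (C0 / 2 + 2 * C1 + 1)), 2 * C0 + 8 * C1,
    lt_min hs0 (by positivity), by positivity, ?_⟩
  intro s R F w hs hss hF hw hmid x h hx hh
  have hss0 : s ≤ s0 := hss.trans (min_le_left _ _)
  have hss1 : s * (C0 / 2 + 2 * C1 + 1) ≤ m.mu K / 8 :=
    (le_div_iff₀ hD).1 (hss.trans (min_le_right _ _))
  have hsle : s ≤ 1 := hss0.trans hs1
  have hxp : ‖x + h‖ ≤ R + 1 / 4 := (norm_add_le _ _).trans (by linarith only [hx, hh])
  have hxm : ‖x - h‖ ≤ R + 1 / 4 := (norm_sub_le _ _).trans (by linarith only [hx, hh])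
  obtain ⟨z, hzl, hz0, hzn, hze⟩ :=
    H (R + 1 / 4) F w s (x + h) (hF.mono (by linarith only [])) hw hs hss0 hxp
  obtain ⟨y, hyl, hy0, hyn, hye⟩ :=
    H (R + 1 / 4) F w s (x - h) (hF.mono (by linarith only [])) hw hs hss0 hxm
  have hz : IsPath z (-s) 0 := ⟨by linarith only [hs], _, hzl⟩
  have hy : IsPath y (-s) 0 := ⟨by linarith only [hs], _, hyl⟩
  set k : ℝ → E := fun t => (1 / 2 : ℝ) • z t + (1 / 2 : ℝ) • y t with hk
  set e : ℝ → E := fun t => (1 : ℝ) • z t + (-1 : ℝ) • y t with he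
  have hkp : IsPath k (-s) 0 := C1_path_comb hz hy _ _
  have hep : IsPath e (-s) 0 := C1_path_comb hz hy _ _
  have het : ∀ t, e t = z t - y t := by
    intro t; simp only [he, one_smul, neg_smul]; abel
  have hk0 : k 0 = x := by
    simp only [hk, hz0, hy0]
    rw [← smul_add]
    have : x + h + (x - h) = (2 : ℝ) • x := by rw [two_smul]; abel
    rw [this, smul_smul]; norm_num
  have he0 : ‖e 0‖ = 2 * ‖h‖ := by
    rw [het, hz0, hy0]
    have : x + h - (x - h) = (2 : ℝ) • h := by rw [two_smul]; abel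
    rw [this, norm_smul]; norm_num
  have hzb : ∀ t ∈ Icc (-s) 0, ‖z t‖ ≤ R + 3 / 4 := by
    intro t ht
    have h1 := hzn t ht
    have h2 : ‖z t‖ ≤ ‖z t - (x + h)‖ + ‖x + h‖ := by
      simpa using norm_add_le (z t - (x + h)) (x + h)
    linarith only [hxp, h1, h2]
  have hyb : ∀ t ∈ Icc (-s) 0, ‖y t‖ ≤ R + 3 / 4 := by
    intro t ht
    have h1 := hyn t ht
    have h2 : ‖y t‖ ≤ ‖y t - (x - h)‖ + ‖x - h‖ := by
      simpa using norm_add_le (y t - (x - h)) (x - h)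
    linarith only [hxm, h1, h2]
  set I := ∫ r in (-s)..0, ‖deriv e r‖ ^ 2 with hI
  have hI0 : 0 ≤ I := intervalIntegral.integral_nonneg (by linarith only [hs]) fun t _ => by positivity
  set M := 8 * ‖h‖ ^ 2 + 2 * (s * I) with hM
  have heM : ∀ t ∈ Icc (-s) 0, ‖e t‖ ^ 2 ≤ M := by
    intro t ht
    have h1 := C1_dist hs hep ht
    rw [he0] at h1
    have h2 : 2 * (2 * ‖h‖) ^ 2 = 8 * ‖h‖ ^ 2 := by ring
    linarith only [h1]
  have hl : -s ∈ Icc (-s) 0 := ⟨le_rfl, by linarith only [hs]⟩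
  -- the boundary term
  have hb : -(C0 / 4 * M) ≤ w (z (-s)) + w (y (-s)) - 2 * w (k (-s)) := by
    have h1 : ‖k (-s)‖ ≤ R + 1 := by
      have h2 := hzb _ hl
      have h3 := hyb _ hl
      have h4 : ‖k (-s)‖ ≤ 1 / 2 * ‖z (-s)‖ + 1 / 2 * ‖y (-s)‖ := by
        refine (norm_add_le _ _).trans ?_
        rw [norm_smul, norm_smul]; norm_num
      linarith only [h2, h3, h4]
    have h5 : ‖(1 / 2 : ℝ) • e (-s)‖ = 1 / 2 * ‖e (-s)‖ := by rw [norm_smul]; norm_num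
    have h2 : ‖(1 / 2 : ℝ) • e (-s)‖ ≤ 1 := by
      have h3 := hzn _ hl
      have h4 := hyn _ hl
      have h6 : e (-s) = (z (-s) - (x + h)) - (y (-s) - (x - h)) + (h + h) := by
        rw [het]; abel
      have h7 : ‖e (-s)‖ ≤ ‖z (-s) - (x + h)‖ + ‖y (-s) - (x - h)‖ + (‖h‖ + ‖h‖) := by
        rw [h6]
        exact (norm_add_le _ _).trans (add_le_add (norm_sub_le _ _) (norm_add_le _ _))
      linarith only [hh, h5, h3, h4, h7]
    have h3 := hmid (k (-s)) ((1 / 2 : ℝ) • e (-s)) h1 h2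
    have h4 : k (-s) + (1 / 2 : ℝ) • e (-s) = z (-s) := by
      rw [het]; simp only [hk]; module
    have h6 : k (-s) - (1 / 2 : ℝ) • e (-s) = y (-s) := by
      rw [het]; simp only [hk]; module
    rw [h4, h6, h5] at h3
    have h7 := mul_le_mul_of_nonneg_left (heM _ hl) hC0
    have h8 : C0 * (1 / 2 * ‖e (-s)‖) ^ 2 = C0 * ‖e (-s)‖ ^ 2 / 4 := by ring
    linarith only [h3, h7]
  -- the integral term
  have hi2 : IntervalIntegrable (fun r => ‖deriv e r‖ ^ 2) volume (-s) 0 :=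
    hep.intervalIntegrable (Φ := fun p : ℝ × (E × E) => ‖p.2.2‖ ^ 2) (by fun_prop)
  have hiz := hz.ii_act hF.cont
  have hiy := hy.ii_act hF.cont
  have hik := hkp.ii_act hF.cont
  have hint : m.mu K / 8 * I - C1 * M * s ≤
      act F z (-s) 0 + act F y (-s) 0 - 2 * act F k (-s) 0 := by
    have h1 : ∫ r in (-s)..0, (m.mu K / 8 * ‖deriv e r‖ ^ 2 - C1 * M) ≤
        ∫ r in (-s)..0, (F (ph z r) + F (ph y r) - 2 * F (ph k r)) := by
      refine C1_mono_ae (by linarith only [hs]) ((hi2.const_mul _).sub intervalIntegrable_const)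
        ((hiz.add hiy).sub (hik.const_mul _)) ?_
      filter_upwards [hz.ae_hasDerivAt, hy.ae_hasDerivAt] with t h1 h2 ht
      have hd1 := h1 ht
      have hd2 := h2 ht
      have ht' : t ∈ Icc (-s) 0 := Ioo_subset_Icc_self ht
      have hv1 : ‖deriv z t‖ ≤ K := by
        have := norm_deriv_le_lip hzl ht
        rwa [Real.coe_toNNReal _ hK] at this
      have hv2 : ‖deriv y t‖ ≤ K := by
        have := norm_deriv_le_lip hyl ht
        rwa [Real.coe_toNNReal _ hK] at this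
      have h3 := HC (R + 2) F hF (ph z t) (ph y t) ⟨(hzb t ht').trans (by linarith only []), hv1⟩
        ⟨(hyb t ht').trans (by linarith only []), hv2⟩
      have h4 : deriv e t = deriv z t - deriv y t := by
        have : HasDerivAt e ((1 : ℝ) • deriv z t + (-1 : ℝ) • deriv y t) t :=
          (hd1.const_smul (1 : ℝ)).add (hd2.const_smul (-1 : ℝ))
        rw [this.deriv, one_smul, neg_smul, one_smul]; abel
      have h5 : ph k t = (1 / 2 : ℝ) • (ph z t + ph y t) := by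
        have : HasDerivAt k ((1 / 2 : ℝ) • deriv z t + (1 / 2 : ℝ) • deriv y t) t :=
          (hd1.const_smul (1 / 2 : ℝ)).add (hd2.const_smul (1 / 2 : ℝ))
        have h9 := this.deriv
        simp only [ph, smul_add, Prod.smul_mk, Prod.mk_add_mk]
        rw [h9]
      have h6 : ‖(ph z t).1 - (ph y t).1‖ ^ 2 ≤ M := by
        have := heM t ht'
        rwa [het] at this
      have h7 := mul_le_mul_of_nonneg_left h6 hC1
      rw [h5, h4]
      have h8 : (ph z t).2 - (ph y t).2 = deriv z t - deriv y t := rfl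
      rw [h8] at h3
      linarith only [h3, h7]
    rw [intervalIntegral.integral_sub (hi2.const_mul _) intervalIntegrable_const,
      intervalIntegral.integral_const_mul, intervalIntegral.integral_const,
      intervalIntegral.integral_sub (hiz.add hiy) (hik.const_mul _),
      intervalIntegral.integral_add hiz hiy, intervalIntegral.integral_const_mul, ← hI,
      smul_eq_mul] at h1
    have h2 : (0 - -s) * (C1 * M) = C1 * M * s := by ring
    rw [h2] at h1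
    exact h1
  have hle := lax_le hw (s := s) hkp
  rw [hk0] at hle
  rw [hze, hye]
  have hA : C0 / 4 * M + C1 * M * s ≤ (2 * C0 + 8 * C1) * ‖h‖ ^ 2 + m.mu K / 8 * I := by
    have h1 : C0 / 4 * M + C1 * M * s =
        (2 * C0 + 8 * C1 * s) * ‖h‖ ^ 2 + (s * (C0 / 2 + 2 * C1 * s)) * I := by
      rw [hM]; ring
    have h2 : C1 * s ≤ C1 := by linarith only [hs1, hC1, hss0, mul_nonneg_of_nonpos_of_nonpos (Mathlib.Tactic.Linarith.sub_nonpos_of_le hs1) (Mathlib.Tactic.Linarith.sub_nonpos_of_le hC1), mul_nonneg_of_nonpos_of_nonpos (Mathlib.Tactic.Linarith.sub_nonpos_of_le hC1) (Mathlib.Tactic.Linarith.sub_nonpos_of_le hss0)]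
    have h3 : (2 * C0 + 8 * C1 * s) * ‖h‖ ^ 2 ≤ (2 * C0 + 8 * C1) * ‖h‖ ^ 2 :=
      mul_le_mul_of_nonneg_right (by linarith only [h2]) (sq_nonneg _)
    have h4 : s * (C0 / 2 + 2 * C1 * s) ≤ s * (C0 / 2 + 2 * C1 + 1) :=
      mul_le_mul_of_nonneg_left (by linarith only [h2]) hs.le
    have h5 : (s * (C0 / 2 + 2 * C1 * s)) * I ≤ m.mu K / 8 * I :=
      mul_le_mul_of_nonneg_right (h4.trans hss1) hI0
    linarith only [h3, h5]
  linarith only [hb, hint, hle, hA]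

theorem C1_invL_rev {F : E × E → ℝ} (hF : InvL Γ F) : InvL Γ (revL F) := by
  intro γ x v
  simp only [revL]
  rw [← map_neg, hF]

theorem exists_isSub (hS : Surf Γ) {F : E × E → ℝ} (hF : Tonelli Γ F) {c : H1 Γ} {u : E → ℝ}
    (hu : InS F c u) : ∃ w, IsSub F c 0 w := by
  obtain ⟨R0, hR0, hcov⟩ := hS.exists_R0
  obtain ⟨m, hm⟩ := hF.ton0 (R0 + 4)
  obtain ⟨s0, hs0, Hsup⟩ := lax_sup m
  obtain ⟨Ca, hCa, Ha⟩ := Hsup s0 hs0 le_rfl
  have hmr : Cls m (R0 + 4) (revL F) := hm.revL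
  have hv : InS (revL F) (-c) (fun x => -u x) := by
    refine ⟨fun γ x => ?_, hu.2.rev⟩
    have h1 : (-c).1 γ = -c.1 γ := rfl
    rw [h1]
    show -u (γ • x) = -u x + -c.1 γ
    rw [hu.1 γ x]; ring
  set w0 := lax (revL F) s0 (fun x => -u x) with hw0
  have hw0d : Dom (revL F) w0 := lax_dom hmr.cont hv.2 hs0.le
  have hw0e : Eqv (-c) w0 := lax_eqv hS (C1_invL_rev hF.invL) hv hs0.le
  set w : E → ℝ := fun x => -w0 x with hw
  have hwd : Dom F w := by
    have := hw0d.rev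
    rwa [revL_revL] at this
  have hwe : Eqv c w := by
    intro γ x
    have h1 : (-c).1 γ = -c.1 γ := rfl
    show -w0 (γ • x) = -w0 x + c.1 γ
    rw [hw0e γ x, h1]; ring
  have hmid : ∀ y d : E, ‖y‖ ≤ R0 + 1 + 1 → ‖d‖ ≤ 1 →
      -(2 * Ca * ‖d‖ ^ 2) ≤ w (y + d) + w (y - d) - 2 * w y := by
    intro y d hy hd
    obtain ⟨p, hp⟩ := Ha (R0 + 2) (revL F) (fun x => -u x) y (hmr.mono (by linarith only [])) hv.2
      (by linarith)
    have h1 := hp (y + d) (by simpa using hd)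
    have h2 := hp (y - d) (by simpa using hd)
    rw [add_sub_cancel_left] at h1
    rw [sub_sub_cancel_left, map_neg, norm_neg] at h2
    show -(2 * Ca * ‖d‖ ^ 2) ≤ -w0 (y + d) + -w0 (y - d) - 2 * -w0 y
    rw [← hw0] at h1 h2
    linarith only [h1, h2]
  obtain ⟨s1, Cm, hs1, hCm, Hm⟩ := lax_mid m (2 * Ca) (by positivity)
  have hs : 0 < min s0 s1 := lt_min hs0 hs1
  obtain ⟨Cb, hCb, Hb⟩ := Hsup (min s0 s1) hs (min_le_left _ _)
  set z := lax F (min s0 s1) w with hz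
  have hzd : Dom F z := lax_dom hF.cont hwd hs.le
  have hze : Eqv c z := lax_eqv hS hF.invL ⟨hwe, hwd⟩ hs.le
  have hU : ContDiffOn ℝ 1 z (Metric.ball (0 : E) (R0 + 1)) := by
    refine contDiffOn_of_quad (C := Cb + Cm) (r := 1 / 4) Metric.isOpen_ball (by norm_num) ?_
    intro x hx
    have hx' : ‖x‖ ≤ R0 + 1 := (mem_ball_zero_iff.1 hx).le
    obtain ⟨p, hp⟩ := Hb (R0 + 1) F w x (hm.mono (by linarith)) hwd hx'
    refine ⟨p, fun y hy => ?_⟩
    have h1 := hp y (by linarith only [hy])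
    have h2 := hp (x - (y - x)) (by rw [sub_sub_cancel_left, norm_neg]; linarith only [hy])
    rw [sub_sub_cancel_left, map_neg, norm_neg] at h2
    have h3 := Hm (min s0 s1) (R0 + 1) F w hs (min_le_right _ _) (hm.mono (by linarith only [])) hwd hmid
      x (y - x) hx' hy
    rw [add_sub_cancel] at h3
    rw [← hz] at h1 h2 h3
    have h4 : 0 ≤ Cm * ‖y - x‖ ^ 2 := by positivity
    rw [abs_le]
    constructor <;> linarith only [h2, h3, h1, h4]
  have hC : ContDiff ℝ 1 z := by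
    rw [contDiff_iff_contDiffAt]
    intro x
    obtain ⟨γ, hγ⟩ := hcov x
    have h1 : ContDiffAt ℝ 1 z (γ • x) :=
      hU.contDiffAt (Metric.isOpen_ball.mem_nhds (mem_ball_zero_iff.2 (by linarith)))
    have h2 : ContDiffAt ℝ 1 (fun y : E => γ • y) x :=
      ((hS.smooth γ).of_le (by exact_mod_cast le_top)).contDiffAt
    have h3 : ContDiffAt ℝ 1 (fun y : E => z (γ • y) - c.1 γ) x :=
      (h1.comp x h2).sub contDiffAt_const
    have h4 : (fun y : E => z (γ • y) - c.1 γ) = z := by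
      funext y; rw [hze γ y]; ring
    rwa [h4] at h3
  refine ⟨z, hC, hze, fun x v => ?_⟩
  rw [add_zero]
  exact hzd.le_of_hasFDerivAt hF.cont
    ((hC.differentiable (by norm_num) x).hasFDerivAt) v

end Pool.Agent.Work.MP_1ce82a_an
end

-- merged part: Pool.Agent.Work.MP_1ce82a_an.F.Coer
section
/-! The second variation at an equilibrium.
PLAN. coer_strong: pointwise B y y >= m |y.2|^2 - C |y.1|^2 (compactness of the unit sphere, absorb mixed terms); take a convex combination with the coercivity inequality; |ph h t|^2 <= |h t|^2 + |deriv h t|^2. coer_open and negL_open: |sv B' - sv B| <= |B' - B| times the integral of |ph h|^2.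
not_negL: for a loop h with a < b the curves x0 + r h (shifted to start at time 0) are loops with deck element 1, so their action is >= 0; Taylor: F((x0,0) + r y) = r DF y + r^2/2 D2 F y y + o(r^2) uniformly for y in a bounded set; the linear term integrates to zero
(the base part vanishes at a minimum of F(.,0), the fibre part integrates to h b - h a). hypFix: for kappa nonzero the field is a loop on [0, 2 pi/|kappa|] and B (ph h)(ph h) is the derivative of mom (h); for kappa = 0 the field is constant. -/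

open Set Filter Topology MeasureTheory
open scoped ContDiff

namespace Pool.Agent.Work.MP_1ce82a_an

variable {Γ : Grp}

theorem Coer_fib {B : E × E →L[ℝ] E × E →L[ℝ] ℝ} (hp : ∀ w : E, w ≠ 0 → 0 < B (0, w) (0, w)) :
    ∃ m : ℝ, 0 < m ∧ ∀ w : E, m * ‖w‖ ^ 2 ≤ B (0, w) (0, w) := by
  obtain ⟨t, t0, ht⟩ := (isCompact_sphere (0 : E) 1).exists_forall_le'
    (f := fun q : E => B (0, q) (0, q)) (a := 0) (by fun_prop)
    fun q hq => hp _ (ne_zero_of_mem_unit_sphere ⟨q, hq⟩)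
  refine ⟨t, t0, fun w => ?_⟩
  obtain ⟨s, u, hu, rfl⟩ : ∃ (s : ℝ) (u : E), ‖u‖ = 1 ∧ w = s • u := by
    by_cases h0 : w = 0
    · exact ⟨0, (1, 0), by simp, by simp [h0]⟩
    · exact ⟨‖w‖, ‖w‖⁻¹ • w, norm_smul_inv_norm h0, by rw [smul_inv_smul₀ (norm_ne_zero_iff.2 h0)]⟩
  have h := ht u (mem_sphere_zero_iff_norm.2 hu)
  rw [show ((0 : E), s • u) = s • ((0 : E), u) by simp, map_smul, map_smul,
    _root_.smul_apply, norm_smul, hu, mul_one, Real.norm_eq_abs, sq_abs, smul_eq_mul,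
    smul_eq_mul]
  linarith only [h, sq_nonneg s, mul_nonneg_of_nonpos_of_nonpos (Mathlib.Tactic.Linarith.sub_nonpos_of_le (sq_nonneg s)) (Mathlib.Tactic.Linarith.sub_nonpos_of_le h)]

theorem Coer_abs (B : E × E →L[ℝ] E × E →L[ℝ] ℝ) (y w : E × E) : |B y w| ≤ ‖B‖ * ‖y‖ * ‖w‖ :=
  B.le_opNorm₂ y w

theorem Coer_pt {B : E × E →L[ℝ] E × E →L[ℝ] ℝ} (hp : ∀ w : E, w ≠ 0 → 0 < B (0, w) (0, w)) :
    ∃ m C : ℝ, 0 < m ∧ 0 ≤ C ∧ ∀ y : E × E, m * ‖y‖ ^ 2 - C * ‖y.1‖ ^ 2 ≤ B y y := by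
  obtain ⟨m, hm, H⟩ := Coer_fib hp
  have hN : 0 ≤ ‖B‖ := ContinuousLinearMap.opNorm_nonneg _
  obtain ⟨k, hk⟩ : ∃ k : ℝ, ‖B‖ = m * k := ⟨‖B‖ / m, by field_simp⟩
  have hk0 : 0 ≤ k := by
    by_contra h
    linarith only [hN, hk, hm, h, not_le.1 h, mul_pos_of_neg_of_neg (Mathlib.Tactic.Linarith.sub_neg_of_lt hm) (Mathlib.Tactic.Linarith.sub_neg_of_lt (lt_of_not_ge h))]
  refine ⟨m / 2, m / 2 + m * k + 2 * m * k ^ 2, by positivity, by positivity, ?_⟩
  rintro ⟨x, v⟩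
  have e : ((x, v) : E × E) = (x, 0) + (0, v) := by simp
  have n1 : ‖((x, 0) : E × E)‖ = ‖x‖ := by simp
  have n2 : ‖((0, v) : E × E)‖ = ‖v‖ := by simp
  have n3 : ‖((x, v) : E × E)‖ ^ 2 ≤ ‖x‖ ^ 2 + ‖v‖ ^ 2 := by
    rw [Prod.norm_mk]
    rcases max_cases ‖x‖ ‖v‖ with h | h <;> rw [h.1] <;> linarith only [sq_nonneg ‖x‖, sq_nonneg ‖v‖, sq_nonneg ‖v‖, sq_nonneg ‖x‖]
  have h1 := (abs_le.1 (Coer_abs B (x, 0) (x, 0))).1
  have h2 := (abs_le.1 (Coer_abs B (x, 0) (0, v))).1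
  have h3 := (abs_le.1 (Coer_abs B (0, v) (x, 0))).1
  have h4 := H v
  rw [n1, hk] at h1
  rw [n1, n2, hk] at h2 h3
  have h5 : B (x, v) (x, v) =
      B (x, 0) (x, 0) + B (x, 0) (0, v) + B (0, v) (x, 0) + B (0, v) (0, v) := by
    conv_lhs => rw [e]
    simp only [map_add, _root_.add_apply]
    ring
  have h6 := mul_nonneg hm.le (sq_nonneg (‖v‖ - 2 * k * ‖x‖))
  have h7 := mul_le_mul_of_nonneg_left n3 hm.le
  rw [h5]
  show m / 2 * ‖((x, v) : E × E)‖ ^ 2 - (m / 2 + m * k + 2 * m * k ^ 2) * ‖x‖ ^ 2 ≤ _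
  linarith only [h1, h2, h3, h4, h6, h7]

theorem Coer_c (B : E × E →L[ℝ] E × E →L[ℝ] ℝ) : Continuous fun y : E × E => B y y := by
  fun_prop

theorem Coer_c1 : Continuous fun y : E × E => ‖y‖ ^ 2 := by fun_prop

theorem Coer_c2 : Continuous fun y : E × E => ‖y.1‖ ^ 2 := by fun_prop

theorem Coer_lin {h : ℝ → E} {a b : ℝ} (hh : IsPath h a b) {f g k : E × E → ℝ} (hf : Continuous f)
    (hg : Continuous g) (hk : Continuous k) {p q : ℝ} (H : ∀ y, p * f y + q * g y ≤ k y) :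
    p * (∫ t in a..b, f (ph h t)) + q * (∫ t in a..b, g (ph h t)) ≤ ∫ t in a..b, k (ph h t) := by
  rw [← intervalIntegral.integral_const_mul, ← intervalIntegral.integral_const_mul,
    ← intervalIntegral.integral_add ((hh.ii_act hf).const_mul p) ((hh.ii_act hg).const_mul q)]
  exact intervalIntegral.integral_mono_on hh.1
    (((hh.ii_act hf).const_mul p).add ((hh.ii_act hg).const_mul q)) (hh.ii_act hk) fun t _ => H _

theorem Coer_nn {h : ℝ → E} {a b : ℝ} (hh : IsPath h a b) : 0 ≤ ∫ t in a..b, ‖ph h t‖ ^ 2 :=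
  intervalIntegral.integral_nonneg hh.1 fun _ _ => sq_nonneg _

theorem Coer_le {h : ℝ → E} {a b : ℝ} (hh : IsPath h a b) :
    ∫ t in a..b, ‖h t‖ ^ 2 ≤ ∫ t in a..b, ‖ph h t‖ ^ 2 :=
  intervalIntegral.integral_mono_on hh.1 (hh.ii_act Coer_c2) (hh.ii_act Coer_c1) fun t _ =>
    pow_le_pow_left₀ (norm_nonneg _) (norm_fst_le (ph h t)) 2

theorem Coer_ptd {B B' : E × E →L[ℝ] E × E →L[ℝ] ℝ} {ε : ℝ} (hε : ‖B' - B‖ ≤ ε) (y : E × E) :
    |B' y y - B y y| ≤ ε * ‖y‖ ^ 2 := by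
  have h := Coer_abs (B' - B) y y
  rw [_root_.sub_apply, _root_.sub_apply] at h
  refine h.trans ?_
  rw [mul_assoc, ← sq]
  exact mul_le_mul_of_nonneg_right hε (sq_nonneg _)

theorem Coer_diff {B B' : E × E →L[ℝ] E × E →L[ℝ] ℝ} {ε : ℝ} (hε : ‖B' - B‖ ≤ ε) {h : ℝ → E}
    {a b : ℝ} (hh : IsPath h a b) :
    sv B h a b - ε * (∫ t in a..b, ‖ph h t‖ ^ 2) ≤ sv B' h a b ∧
      sv B' h a b - ε * (∫ t in a..b, ‖ph h t‖ ^ 2) ≤ sv B h a b := by
  have h1 := Coer_lin hh (Coer_c B) Coer_c1 (Coer_c B') (p := 1) (q := -ε) fun y => by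
    linarith only [hε, (abs_le.1 (Coer_ptd hε y)).1]
  have h2 := Coer_lin hh (Coer_c B') Coer_c1 (Coer_c B) (p := 1) (q := -ε) fun y => by
    linarith only [hε, (abs_le.1 (Coer_ptd hε y)).2]
  unfold sv
  constructor <;> linarith only [h1, h2]

theorem Coer_eps {s I : ℝ} (hs : s < 0) (hI : 0 ≤ I) : ∃ ε : ℝ, 0 < ε ∧ s + ε * I < 0 := by
  refine ⟨-s / (I + 1), div_pos (neg_pos.2 hs) (by linarith only [hI]), ?_⟩
  have h : -s / (I + 1) * (I + 1) = -s := div_mul_cancel₀ _ (by linarith)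
  have h2 : 0 < -s / (I + 1) := div_pos (neg_pos.2 hs) (by linarith only [hI])
  linarith only [h, h2]

theorem coer_strong {B : E × E →L[ℝ] E × E →L[ℝ] ℝ} (hB : Coer B)
    (hp : ∀ w : E, w ≠ 0 → 0 < B (0, w) (0, w)) : ∃ μ : ℝ, 0 < μ ∧
      ∀ (h : ℝ → E) (a b : ℝ), IsPath h a b → h a = h b →
        μ * ∫ t in a..b, ‖ph h t‖ ^ 2 ≤ sv B h a b := by
  obtain ⟨μ, hμ, H⟩ := hB
  obtain ⟨m, C, hm, hC, K⟩ := Coer_pt hp
  refine ⟨μ * m / (C + μ), by positivity, fun h a b hh he => ?_⟩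
  have h1 := H h a b hh he
  have h2 : m * (∫ t in a..b, ‖ph h t‖ ^ 2) + -C * (∫ t in a..b, ‖h t‖ ^ 2) ≤ sv B h a b :=
    Coer_lin hh Coer_c1 Coer_c2 (Coer_c B) (p := m) (q := -C) fun y => by linarith only [K, K y]
  rw [div_mul_eq_mul_div, div_le_iff₀ (by positivity)]
  linarith only [h1, hC, h2, hμ, mul_le_mul_of_nonneg_left h1 hC, mul_le_mul_of_nonneg_left h2 hμ.le]

theorem coer_open {B : E × E →L[ℝ] E × E →L[ℝ] ℝ} (hB : Coer B)
    (hp : ∀ w : E, w ≠ 0 → 0 < B (0, w) (0, w)) :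
    ∃ ε : ℝ, 0 < ε ∧ ∀ B', ‖B' - B‖ ≤ ε → Coer B' := by
  obtain ⟨μ, hμ, H⟩ := coer_strong hB hp
  refine ⟨μ / 2, by positivity, fun B' hε => ⟨μ / 2, by positivity, fun h a b hh he => ?_⟩⟩
  have h1 := H h a b hh he
  have h2 := (Coer_diff hε hh).1
  have h3 := mul_le_mul_of_nonneg_left (Coer_le hh) hμ.le
  linarith only [h1, h2, h3]

theorem negL_open {B : E × E →L[ℝ] E × E →L[ℝ] ℝ} (hB : NegL B) :
    ∃ ε : ℝ, 0 < ε ∧ ∀ B', ‖B' - B‖ ≤ ε → NegL B' := by
  obtain ⟨h, a, b, hh, he, hs⟩ := hB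
  obtain ⟨ε, hε, H⟩ := Coer_eps hs (Coer_nn hh)
  refine ⟨ε, hε, fun B' hB' => ⟨h, a, b, hh, he, ?_⟩⟩
  linarith only [H, hB', hh, (Coer_diff hB' hh).2]

theorem coer_of_not_negL {B B' : E × E →L[ℝ] E × E →L[ℝ] ℝ} (hB : ¬ NegL B) {μ : ℝ} (hμ : 0 < μ)
    (h : ∀ a : E × E, B a a + μ * ‖a.1‖ ^ 2 ≤ B' a a) : Coer B' := by
  refine ⟨μ, hμ, fun z a b hz he => ?_⟩
  have h1 : 0 ≤ sv B z a b := not_lt.1 fun k => hB ⟨z, a, b, hz, he, k⟩
  have h2 : 1 * sv B z a b + μ * (∫ t in a..b, ‖z t‖ ^ 2) ≤ sv B' z a b :=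
    Coer_lin hz (Coer_c B) Coer_c2 (Coer_c B') (p := 1) (q := μ) fun y => by linarith only [h, h y]
  linarith

theorem Crit.nonneg {F : E × E → ℝ} {c : H1 Γ} (hc : Crit F c) (y : E) : 0 ≤ F (y, 0) := by
  have h := hc.1 (fun _ => y) 1 1
    ⟨one_pos, isPath_of_contDiff contDiff_const zero_le_one, (one_smul _ _).symm⟩
  rw [H1.map_one] at h
  simpa [act, ph_const] using h

theorem Crit.xpart_zero {F : E × E → ℝ} (hF : ContDiff ℝ 2 F) {c : H1 Γ} (hc : Crit F c) {x0 : E}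
    (h0 : F (x0, 0) = 0) : xpart (fderiv ℝ F (x0, 0)) = 0 := by
  have h1 : HasFDerivAt (fun x : E => F (x, 0)) (xpart (fderiv ℝ F (x0, 0))) x0 :=
    (hF.differentiable two_ne_zero (x0, 0)).hasFDerivAt.comp x0 (hasFDerivAt_prodMk_left x0 (0 : E))
  refine IsLocalMin.hasFDerivAt_eq_zero (Eventually.of_forall fun y => ?_) h1
  exact h0.le.trans (hc.nonneg y)

theorem Coer_ph (x0 : E) (r : ℝ) (h : ℝ → E) (t : ℝ) :
    ph (fun s => x0 + r • h s) t = (x0, 0) + r • ph h t := by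
  rw [ph, ph, deriv_const_add, deriv_fun_const_smul_field]
  simp

theorem Coer_path (x0 : E) (r : ℝ) {h : ℝ → E} {a b : ℝ} (hh : IsPath h a b) :
    IsPath (fun s => x0 + r • h s) a b := by
  obtain ⟨hab, K, hK⟩ := hh
  refine ⟨hab, ‖r‖₊ * K, LipschitzOnWith.of_dist_le_mul fun x hx y hy => ?_⟩
  rw [dist_add_left, dist_smul₀, NNReal.coe_mul, coe_nnnorm, mul_assoc]
  exact mul_le_mul_of_nonneg_left (hK.dist_le_mul x hx y hy) (norm_nonneg _)

theorem Coer_bd {h : ℝ → E} {a b : ℝ} (hh : IsPath h a b) :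
    ∃ M : ℝ, 0 < M ∧ ∀ t ∈ Ioo a b, ‖ph h t‖ ≤ M := by
  obtain ⟨M, hM⟩ := isCompact_Icc.exists_bound_of_continuousOn hh.continuousOn
  obtain ⟨K, hK⟩ := hh.2
  refine ⟨max M (K + 1), lt_max_of_lt_right (by positivity), fun t ht => ?_⟩
  rw [ph, Prod.norm_mk]
  exact max_le_max (hM t (Ioo_subset_Icc_self ht)) (by linarith only [hK, ht, norm_deriv_le_lip hK ht])

theorem Coer_tay {F : E × E → ℝ} (hF : ContDiff ℝ 2 F) (z : E × E) {ε M : ℝ} (hε : 0 < ε)
    (hM : 0 < M) : ∃ r : ℝ, 0 < r ∧ ∀ y : E × E, ‖y‖ ≤ M →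
      F (z + r • y) ≤ F z + r * fderiv ℝ F z y + r ^ 2 / 2 * (D2 F z y y + ε * ‖y‖ ^ 2) := by
  have hc : Tendsto (fun w => ‖D2 F w - D2 F z‖) (𝓝 z) (𝓝 0) :=
    (tendsto_iff_norm_sub_tendsto_zero (E := E × E →L[ℝ] E × E →L[ℝ] ℝ)).1
      ((continuous_D2 hF).tendsto z)
  obtain ⟨δ, hδ, H⟩ := Metric.eventually_nhds_iff.1 (hc.eventually_lt_const hε)
  refine ⟨δ / (2 * M), by positivity, fun y hy => ?_⟩
  have hr : 0 < δ / (2 * M) := by positivity
  have hrM : δ / (2 * M) * M = δ / 2 := by field_simp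
  generalize δ / (2 * M) = r at hr hrM
  have h1 := ClsB_tay' hF z (r • y) (c := r ^ 2 * (D2 F z y y + ε * ‖y‖ ^ 2)) fun s hs => by
    have h2 : dist (z + s • r • y) z < δ := by
      rw [dist_eq_norm, add_sub_cancel_left, norm_smul, norm_smul, Real.norm_of_nonneg hs.1,
        Real.norm_of_nonneg hr.le]
      have h3 : r * ‖y‖ ≤ r * M := mul_le_mul_of_nonneg_left hy hr.le
      have h4 : s * (r * ‖y‖) ≤ 1 * (r * ‖y‖) :=
        mul_le_mul_of_nonneg_right hs.2 (by positivity)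
      linarith only [hδ, hrM, h3, h4]
    have h5 := (abs_le.1 (Coer_ptd (H h2).le y)).2
    rw [map_smul, map_smul, _root_.smul_apply, smul_eq_mul, smul_eq_mul]
    linarith only [h5, mul_le_mul_of_nonneg_left h5 (sq_nonneg r), sq_nonneg r]
  rw [map_smul, smul_eq_mul] at h1
  linarith only [h1]

theorem Coer_first {p : E × E →L[ℝ] ℝ} (hp : xpart p = 0) {h : ℝ → E} {a b : ℝ}
    (hh : IsPath h a b) (he : h a = h b) : ∫ t in a..b, p (ph h t) = 0 := by
  have hi : IntervalIntegrable (fun t => deriv h t) volume a b :=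
    hh.intervalIntegrable (Φ := fun p => p.2.2) (continuous_snd.comp continuous_snd)
  have e : ∀ t, p (ph h t) = vpart p (deriv h t) := fun t => by
    rw [ph, clm_split, hp]
    simp
  simp only [e]
  rw [(vpart p).intervalIntegral_comp_comm hi, hh.ftc, he, sub_self, map_zero]

theorem Coer_loop {F : E × E → ℝ} {c : H1 Γ} (hc : Crit F c) {z : ℝ → E} {a b : ℝ}
    (hz : IsPath z a b) (hab : a < b) (he : z a = z b) : 0 ≤ act F z a b := by
  have h1 : IsPath z (0 + a) (b - a + a) := by rwa [zero_add, sub_add_cancel]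
  have h2 := hc.1 (fun t => z (t + a)) (b - a) 1
    ⟨sub_pos.2 hab, h1.shift a, by
      rw [one_smul]
      show z (b - a + a) = z (0 + a)
      rw [zero_add, sub_add_cancel, he]⟩
  rwa [H1.map_one, act_shift, zero_add, sub_add_cancel] at h2

theorem not_negL {F : E × E → ℝ} (hF : ContDiff ℝ 2 F) {c : H1 Γ} (hc : Crit F c) {x0 : E}
    (h0 : F (x0, 0) = 0) : ¬ NegL (D2 F (x0, 0)) := by
  rintro ⟨h, a, b, hh, he, hs⟩
  have hab : a < b := lt_of_le_of_ne hh.1 fun e => by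
    rw [e, sv, intervalIntegral.integral_same] at hs
    exact lt_irrefl _ hs
  obtain ⟨ε, hε, H⟩ := Coer_eps hs (Coer_nn hh)
  obtain ⟨M, hM, hb⟩ := Coer_bd hh
  obtain ⟨r, hr, T⟩ := Coer_tay hF (x0, 0) hε hM
  have hz := Coer_path x0 r hh
  have h1 : 0 ≤ act F (fun s => x0 + r • h s) a b := by
    refine Coer_loop hc hz hab ?_
    show x0 + r • h a = x0 + r • h b
    rw [he]
  have i1 := (hh.ii_act (fderiv ℝ F (x0, 0)).continuous).const_mul r
  have i2 := hh.ii_act (Coer_c (D2 F (x0, 0)))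
  have i3 := (hh.ii_act Coer_c1).const_mul ε
  have h3 : act F (fun s => x0 + r • h s) a b ≤ ∫ t in a..b, (r * fderiv ℝ F (x0, 0) (ph h t) +
      r ^ 2 / 2 * (D2 F (x0, 0) (ph h t) (ph h t) + ε * ‖ph h t‖ ^ 2)) :=
    intervalIntegral.integral_mono_on_of_le_Ioo hh.1 (hz.ii_act hF.continuous)
      (i1.add ((i2.add i3).const_mul _)) fun t ht => by
        have h4 := T _ (hb t ht)
        rw [h0, zero_add] at h4
        rw [Coer_ph]
        exact h4
  rw [intervalIntegral.integral_add i1 ((i2.add i3).const_mul _),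
    intervalIntegral.integral_const_mul, intervalIntegral.integral_const_mul,
    intervalIntegral.integral_add i2 i3, intervalIntegral.integral_const_mul,
    Coer_first (hc.xpart_zero hF h0) hh he] at h3
  have h5 : r ^ 2 / 2 * (sv (D2 F (x0, 0)) h a b + ε * ∫ t in a..b, ‖ph h t‖ ^ 2) < 0 :=
    mul_neg_of_pos_of_neg (by positivity) H
  unfold sv at h5
  linarith only [h1, h3, h5]

theorem Coer_jac {B : E × E →L[ℝ] E × E →L[ℝ] ℝ} (hB : Coer B) {ξ : ℝ → E} (h1 : ContDiff ℝ 1 ξ)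
    (h2 : ∀ t, HasDerivAt (fun s => vpart (B (ph ξ s))) (xpart (B (ph ξ t))) t) {P : ℝ}
    (hP : 0 < P) (hper : ∀ t, ξ (t + P) = ξ t) (t : ℝ) : ξ t = 0 := by
  obtain ⟨μ, hμ, H⟩ := hB
  have hab : t < t + P := by linarith
  have hp := isPath_of_contDiff h1 hab.le
  have h3 := H ξ t (t + P) hp (hper t).symm
  have h4 : ph ξ (t + P) = ph ξ t := by rw [← ph_shift, funext hper]
  have h5 : sv B ξ t (t + P) =
      vpart (B (ph ξ (t + P))) (ξ (t + P)) - vpart (B (ph ξ t)) (ξ t) := by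
    refine intervalIntegral.integral_eq_sub_of_hasDerivAt
      (f := fun s => vpart (B (ph ξ s)) (ξ s)) (fun s _ => ?_) (hp.ii_act (Coer_c B))
    have h6 := (h2 s).clm_apply ((h1.differentiable one_ne_zero) s).hasDerivAt
    rwa [← clm_split] at h6
  rw [h5, h4, hper, sub_self] at h3
  by_contra hne
  have h7 : 0 < ∫ s in t..t + P, ‖ξ s‖ ^ 2 :=
    intervalIntegral.integral_pos hab (h1.continuous.norm.pow 2).continuousOn
      (fun _ _ => sq_nonneg _) ⟨t, left_mem_Icc.2 hab.le, pow_pos (norm_pos_iff.2 hne) 2⟩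
  linarith only [h3, hμ, h7, mul_pos hμ h7]

theorem hypFix_of_coer {F : E × E → ℝ} {x0 : E} (h0 : xpart (fderiv ℝ F (x0, 0)) = 0)
    (hB : Coer (D2 F (x0, 0))) : HypFix F (fun _ => x0) := by
  refine ⟨⟨contDiff_const, fun t => ?_⟩, fun _ => rfl, fun κ a b hJ t => ?_⟩
  · simp only [ph_const]
    rw [h0]
    exact hasDerivAt_const _ _
  · obtain ⟨h1, h2⟩ := hJ
    simp only [ph_const] at h2
    obtain ⟨P, hP, k, hk⟩ : ∃ P : ℝ, 0 < P ∧ ∃ k : ℤ, κ * P = k * (2 * Real.pi) := by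
      rcases lt_trichotomy κ 0 with h | h | h
      · refine ⟨2 * Real.pi / -κ, div_pos Real.two_pi_pos (neg_pos.2 h), -1, ?_⟩
        have := h.ne
        push_cast
        field_simp
      · exact ⟨1, one_pos, 0, by simp [h]⟩
      · refine ⟨2 * Real.pi / κ, div_pos Real.two_pi_pos h, 1, ?_⟩
        push_cast
        field_simp
    refine Coer_jac hB h1 h2 hP (fun s => ?_) t
    show Real.cos (κ * (s + P)) • a + Real.sin (κ * (s + P)) • b = _
    rw [mul_add, hk, Real.cos_add_int_mul_two_pi, Real.sin_add_int_mul_two_pi]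

end Pool.Agent.Work.MP_1ce82a_an
end

-- merged part: Pool.Agent.Work.MP_1ce82a_an.F.Cacc
section
/-! Caccioppoli estimate near a coercive equilibrium.
PLAN. w = z2 - z1, W = (w, w'), |W| <= max 1 Lambda |w|. For 1 <= k < n let psi be the trapezoid equal to 1 on [-k,k] and 0 at -(k+1), k+1 (psi t = max 0 (min 1 (k+1-|t|)), Lipschitz, derivative +-1 or 0 off four points). The function (mo z2 - mo z1)(psi^2 w) is Lipschitz and vanishes at the ends (ftc_lip), its derivative is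
[DF'(Z2) - DF'(Z1)](psi^2 w, psi^2 w' + 2 psi psi' w) with F' = addPot F h, and DF'(Z2) - DF'(Z1) = B W + o(1)|W|, B = D2 F (x0,0) symmetric. With g = psi w, B (ph g)(ph g) = psi^2 B W W + 2 psi psi' B W (0,w) + psi'^2 B (0,w)(0,w). Coer for the loop g gives
mu I(psi^2 |w|^2) <= C I(psi'^2 |w|^2) + eps C I((psi^2 + psi'^2)|w|^2), so I_k <= C1 (I_(k+1) - I_k) for I_k the integral of |w|^2 over [-k,k]; iterate, I_n <= 8 n delta^2, and gron_lip bounds |w 0|^2 by a constant times I_1. The case n = 0 is trivial with C large. -/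

open Set Filter Topology MeasureTheory
open scoped ContDiff

namespace Pool.Agent.Work.MP_1ce82a_an

variable {Γ : Grp}

theorem Cacc_pt {B : E × E →L[ℝ] E × E →L[ℝ] ℝ} (hs : ∀ a b, B a b = B b a) {D : E × E →L[ℝ] ℝ}
    {W : E × E} {ε L κ φ φ' μ : ℝ} (hε : 0 ≤ ε) (hD : ‖D - B W‖ ≤ ε * ‖W‖) (hW : ‖W‖ ≤ L * ‖W.1‖)
    (hL : 0 ≤ L) (h1 : 1 ≤ φ) (h2 : φ' ^ 2 ≤ 4 * κ ^ 2 * φ ^ 2) (h3 : ε * L * (L + 1) ≤ μ / 8)
    (h4 : 4 * κ ^ 2 * (μ / 8 + ‖B‖) ≤ μ / 8) :
    B ((φ - 1) • W + φ' • (0, W.1)) ((φ - 1) • W + φ' • (0, W.1)) ≤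
      D ((φ - 1) ^ 2 • W + (2 * (φ - 1) * φ') • (0, W.1)) + μ / 4 * (φ ^ 2 * ‖W.1‖ ^ 2) := by
  have n0 : ‖((0 : E), W.1)‖ = ‖W.1‖ := by simp
  generalize ((0 : E), W.1) = U at n0 ⊢
  have e1 : B ((φ - 1) • W + φ' • U) ((φ - 1) • W + φ' • U) =
      B W ((φ - 1) ^ 2 • W + (2 * (φ - 1) * φ') • U) + φ' ^ 2 * B U U := by
    simp only [map_add, map_smul, add_apply, smul_apply, smul_eq_mul, hs U W]
    ring
  have e2 : ‖(φ - 1) ^ 2 • W + (2 * (φ - 1) * φ') • U‖ ≤ ((L + 1) * φ ^ 2 + φ' ^ 2) * ‖W.1‖ := by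
    refine (norm_add_le _ _).trans ?_
    rw [norm_smul, norm_smul, n0, Real.norm_eq_abs, Real.norm_eq_abs, abs_of_nonneg (sq_nonneg _)]
    have k0 : (φ - 1) ^ 2 ≤ φ ^ 2 := by linarith only [h1]
    have k1 : |2 * (φ - 1) * φ'| ≤ φ ^ 2 + φ' ^ 2 :=
      abs_le.2 ⟨by linarith only [h1, sq_nonneg (φ - 1 + φ'), sq_nonneg (φ - (1 : ℝ) + φ')], by linarith only [h1, sq_nonneg (φ - 1 - φ'), sq_nonneg (φ - (1 : ℝ) - φ')]⟩
    have k2 := mul_le_mul k0 hW (norm_nonneg _) (sq_nonneg _)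
    have k3 := mul_le_mul_of_nonneg_right k1 (norm_nonneg W.1)
    linarith only [k2, k3]
  generalize (φ - 1) ^ 2 • W + (2 * (φ - 1) * φ') • U = V at e1 e2 ⊢
  have e3 : B U U ≤ ‖B‖ * ‖W.1‖ ^ 2 := by
    have := B.le_opNorm₂ U U
    rw [n0, Real.norm_eq_abs] at this
    linarith only [this, le_abs_self (B U U)]
  have e4 := (D - B W).le_of_opNorm_le_of_le (hD.trans (mul_le_mul_of_nonneg_left hW hε)) e2
  rw [sub_apply, Real.norm_eq_abs] at e4
  have e5 := neg_abs_le (D V - B W V)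
  have e6 := mul_le_mul_of_nonneg_left e3 (sq_nonneg φ')
  have e7 : ε * L ≤ μ / 8 := by linarith only [h3, hε, hL, mul_nonneg (mul_nonneg hε hL) hL]
  have e8 : φ' ^ 2 * (ε * L + ‖B‖) ≤ μ / 8 * φ ^ 2 := by
    have k1 := mul_le_mul h2 (add_le_add_left e7 ‖B‖) (by positivity) (by positivity)
    have k2 := mul_le_mul_of_nonneg_right h4 (sq_nonneg φ)
    linarith only [k1, k2]
  have e9 := mul_le_mul_of_nonneg_right e8 (sq_nonneg ‖W.1‖)
  have e10 := mul_le_mul_of_nonneg_right h3 (mul_nonneg (sq_nonneg φ) (sq_nonneg ‖W.1‖))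
  rw [e1]
  linarith only [e4, e5, e6, e9, e10]

theorem Cacc_int {B : E × E →L[ℝ] E × E →L[ℝ] ℝ} {μ a b : ℝ} (hμ : 0 < μ) (hab : a ≤ b)
    (hB : ∀ (h : ℝ → E) (a b : ℝ), IsPath h a b → h a = h b →
      μ * ∫ t in a..b, ‖h t‖ ^ 2 ≤ sv B h a b)
    {W : ℝ → E × E} {D : ℝ → E × E →L[ℝ] ℝ} {φ φ' : ℝ → ℝ} (cW : ContinuousOn W (Icc a b))
    (cD : ContinuousOn D (Icc a b)) (cφ : Continuous φ') (dφ : ∀ t, HasDerivAt φ (φ' t) t)
    (dW : ∀ t ∈ Icc a b, HasDerivAt (fun s => (W s).1) (W t).2 t)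
    (dD : ∀ t ∈ Icc a b, HasDerivAt (fun s => vpart (D s)) (xpart (D t)) t) (ha : φ a = 1)
    (hb : φ b = 1) (hw : ∀ t ∈ Icc a b, ‖(W t).1‖ ≤ 2)
    (h : ∀ t ∈ Icc a b,
      B ((φ t - 1) • W t + φ' t • (0, (W t).1)) ((φ t - 1) • W t + φ' t • (0, (W t).1)) ≤
      D t ((φ t - 1) ^ 2 • W t + (2 * (φ t - 1) * φ' t) • (0, (W t).1)) +
        μ / 4 * (φ t ^ 2 * ‖(W t).1‖ ^ 2)) :
    ∫ t in a..b, φ t ^ 2 * ‖(W t).1‖ ^ 2 ≤ 16 * (b - a) := by
  have c0 : Continuous φ := continuous_iff_continuousAt.2 fun t => (dφ t).continuousAt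
  have dg : ∀ t ∈ Icc a b, HasDerivAt (fun s => (φ s - 1) • (W s).1)
      ((φ t - 1) • (W t).2 + φ' t • (W t).1) t := fun t ht => ((dφ t).sub_const 1).smul (dW t ht)
  have k1 := hB _ a b (isPath_of_hasDerivAt hab dg (by fun_prop)) (by simp [ha, hb])
  have k2 : sv B (fun s => (φ s - 1) • (W s).1) a b = ∫ t in a..b,
      B ((φ t - 1) • W t + φ' t • (0, (W t).1)) ((φ t - 1) • W t + φ' t • (0, (W t).1)) :=
    intervalIntegral.integral_congr fun t ht => by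
      rw [uIcc_of_le hab] at ht
      have : ph (fun s => (φ s - 1) • (W s).1) t = (φ t - 1) • W t + φ' t • (0, (W t).1) := by
        rw [ph, (dg t ht).deriv]
        exact Prod.ext (by simp) (by simp)
      simp only [this]
  have i1 : IntervalIntegrable (fun t => B ((φ t - 1) • W t + φ' t • (0, (W t).1))
      ((φ t - 1) • W t + φ' t • (0, (W t).1))) volume a b :=
    ContinuousOn.intervalIntegrable_of_Icc hab (by fun_prop)
  have i2 : IntervalIntegrable (fun t =>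
      D t ((φ t - 1) ^ 2 • W t + (2 * (φ t - 1) * φ' t) • (0, (W t).1))) volume a b :=
    ContinuousOn.intervalIntegrable_of_Icc hab (cD.clm_apply (by fun_prop))
  have i3 : IntervalIntegrable (fun t => μ / 4 * (φ t ^ 2 * ‖(W t).1‖ ^ 2)) volume a b :=
    ContinuousOn.intervalIntegrable_of_Icc hab (by fun_prop)
  have i4 : IntervalIntegrable (fun t => μ * ‖(φ t - 1) • (W t).1‖ ^ 2) volume a b :=
    ContinuousOn.intervalIntegrable_of_Icc hab (by fun_prop)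
  have i5 : IntervalIntegrable (fun _ : ℝ => 4 * μ) volume a b := intervalIntegrable_const
  have k3 := intervalIntegral.integral_eq_sub_of_hasDerivAt
    (f := fun s => vpart (D s) ((φ s - 1) ^ 2 • (W s).1)) (fun t ht => by
      rw [uIcc_of_le hab] at ht
      refine ((dD t ht).clm_apply ((((dφ t).sub_const 1).fun_pow 2).smul (dW t ht))).congr_deriv ?_
      rw [← clm_split]
      exact congrArg _ (Prod.ext (by simp) (by simp))) i2
  have k4 := intervalIntegral.integral_mono_on hab (i1.add i3) ((i2.add i4).add i5) fun t ht => by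
    have q1 := h t ht
    have q2 := pow_le_pow_left₀ (norm_nonneg _) (hw t ht) 2
    have q3 := mul_nonneg (sq_nonneg (φ t - 2)) (sq_nonneg ‖(W t).1‖)
    rw [norm_smul, mul_pow, Real.norm_eq_abs, sq_abs]
    linarith only [q1, hμ, q2, q3, mul_nonneg_of_nonpos_of_nonpos (le_of_lt (Mathlib.Tactic.Linarith.sub_neg_of_lt hμ)) (Mathlib.Tactic.Linarith.sub_nonpos_of_le q2), mul_nonneg_of_nonpos_of_nonpos (le_of_lt (Mathlib.Tactic.Linarith.sub_neg_of_lt hμ)) (Mathlib.Tactic.Linarith.sub_nonpos_of_le q3)]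
  rw [intervalIntegral.integral_add i1 i3, intervalIntegral.integral_add (i2.add i4) i5,
    intervalIntegral.integral_add i2 i4, intervalIntegral.integral_const_mul,
    intervalIntegral.integral_const_mul, intervalIntegral.integral_const, ← k2, k3, ha, hb,
    smul_eq_mul] at k4
  simp only [sub_self, ne_eq, OfNat.ofNat_ne_zero, not_false_eq_true, zero_pow, zero_smul,
    map_zero, zero_add] at k4
  (refine le_of_not_gt fun h_nl => ?_; linarith only [h_nl, k1, k4, hμ, mul_pos_of_neg_of_neg (Mathlib.Tactic.Linarith.sub_neg_of_lt hμ) (Mathlib.Tactic.Linarith.sub_neg_of_lt h_nl)])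

theorem cacc {F : E × E → ℝ} (hF : ContDiff ℝ 2 F) {x0 : E} (hB : Coer (D2 F (x0, 0))) {Λ : ℝ}
    (hΛ : 0 ≤ Λ) : ∃ δ R C κ : ℝ, 0 < δ ∧ 0 < κ ∧ ∀ h : E → ℝ, ContDiff ℝ 2 h → Small R δ h →
      ∀ (z1 z2 : ℝ → E) (n : ℕ), OrbOn (addPot F h) z1 (-n) n → OrbOn (addPot F h) z2 (-n) n →
        (∀ t ∈ Icc (-n : ℝ) n, ‖ph z1 t - (x0, 0)‖ ≤ δ ∧ ‖ph z2 t - (x0, 0)‖ ≤ δ ∧
          ‖deriv z1 t - deriv z2 t‖ ≤ Λ * ‖z1 t - z2 t‖) →
        ‖z2 0 - z1 0‖ ≤ C * Real.exp (-(κ * n)) := by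
  obtain ⟨μ, hμ, hc⟩ := hB
  set B := D2 F (x0, 0) with hB
  obtain ⟨ε, hε, h3⟩ : ∃ ε : ℝ, 0 < ε ∧ 2 * ε * (Λ + 1) * (Λ + 1 + 1) ≤ μ / 8 :=
    ⟨μ / (16 * (Λ + 1) * (Λ + 1 + 1)), by positivity, by field_simp; norm_num⟩
  obtain ⟨κ, hκ, h4⟩ : ∃ κ : ℝ, 0 < κ ∧ 4 * κ ^ 2 * (μ / 8 + ‖B‖) ≤ μ / 8 :=
    ⟨√(μ / (32 * (μ / 8 + ‖B‖))), by positivity, by
      rw [Real.sq_sqrt (by positivity)]; field_simp; norm_num⟩
  obtain ⟨δ0, hδ0, hd⟩ := (Metric.continuousAt_iff (f := D2 F) (a := (x0, 0))).1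
    (continuous_D2 hF).continuousAt ε hε
  have d0 : 0 < min (δ0 / 2) (min ε 1) := by positivity
  have d1 : min (δ0 / 2) (min ε 1) < δ0 := (min_le_left _ _).trans_lt (by linarith only [hδ0])
  have d2 : min (δ0 / 2) (min ε 1) ≤ ε := (min_le_right _ _).trans (min_le_left _ _)
  have d3 : min (δ0 / 2) (min ε 1) ≤ 1 := (min_le_right _ _).trans (min_le_right _ _)
  generalize min (δ0 / 2) (min ε 1) = δ at d0 d1 d2 d3
  refine ⟨δ, ‖x0‖ + 1, 2 + √(32 / κ) * Real.exp (κ + Λ), κ / 2, d0, by positivity,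
    fun h hh hs z1 z2 n o1 o2 hz => ?_⟩
  have hw : ∀ t ∈ Icc (-n : ℝ) n, ‖(ph z2 t - ph z1 t).1‖ ≤ 2 := fun t ht => by
    linarith only [d3, hz, ht, norm_fst_le (ph z2 t - ph z1 t), (hz t ht).1, (hz t ht).2.1,
      norm_sub_le_norm_sub_add_norm_sub (ph z2 t) (x0, 0) (ph z1 t), norm_sub_rev (x0, 0) (ph z1 t)]
  rcases Nat.eq_zero_or_pos n with rfl | hn
  · have : ‖z2 0 - z1 0‖ ≤ 2 := hw 0 (by simp)
    have : 0 ≤ √(32 / κ) * Real.exp (κ + Λ) := by positivity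
    simp only [Nat.cast_zero, mul_zero, neg_zero, Real.exp_zero]
    linarith
  have hn' : (1 : ℝ) ≤ n := by exact_mod_cast hn
  generalize (n : ℝ) = N at *
  have hF' := Ton_c2 hF hh
  have cp : ∀ {z : ℝ → E}, OrbOn (addPot F h) z (-N) N → ContinuousOn (ph z) (Icc (-N) N) :=
    fun o t ht => ((o t ht).1.continuousAt.prodMk (o t ht).2.1).continuousWithinAt
  have cW := (cp o2).sub (cp o1)
  have hφ : ∀ t, HasDerivAt (fun s => Real.exp (κ / N * (N ^ 2 - s ^ 2)))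
      (Real.exp (κ / N * (N ^ 2 - t ^ 2)) * (κ / N * -(2 * t))) t := fun t => by
    simpa using (((hasDerivAt_pow 2 t).const_sub (N ^ 2)).const_mul (κ / N)).exp
  have key := Cacc_int hμ (by linarith only [hn'] : -N ≤ N) hc (W := fun t => ph z2 t - ph z1 t)
    (D := fun t => fderiv ℝ (addPot F h) (ph z2 t) - fderiv ℝ (addPot F h) (ph z1 t)) cW
    (((ClsB_c1 hF').continuous.comp_continuousOn (cp o2)).sub
      ((ClsB_c1 hF').continuous.comp_continuousOn (cp o1))) (by fun_prop) hφ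
    (fun t ht => (o2 t ht).1.sub (o1 t ht).1) (fun t ht => (o2 t ht).2.2.sub (o1 t ht).2.2)
    (by simp) (by simp) hw fun t ht => by
      refine Cacc_pt (D2_symm hF _) (ε := 2 * ε) (L := Λ + 1) (κ := κ) (by positivity) ?_ ?_
        (by positivity) (Real.one_le_exp (mul_nonneg (by positivity) (by linarith only [ht, ht.1, ht.2, mul_nonneg_of_nonpos_of_nonpos (Mathlib.Tactic.Linarith.sub_nonpos_of_le ht.left) (Mathlib.Tactic.Linarith.sub_nonpos_of_le ht.right)])))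
        ?_ h3 h4
      · refine (convex_closedBall (x0, (0 : E)) δ).norm_image_sub_le_of_norm_hasFDerivWithin_le'
          (fun y _ => (hasFDerivAt_fderiv hF' y).hasFDerivWithinAt) (fun y hy => ?_)
          (mem_closedBall_iff_norm.2 (hz t ht).1) (mem_closedBall_iff_norm.2 (hz t ht).2.1)
        have q1 : ‖D2 F y - B‖ < ε := (dist_eq_norm (D2 F y) B).symm.trans_lt (hd (hy.trans_lt d1))
        have q2 : ‖y.1 - x0‖ ≤ δ := (norm_fst_le (y - (x0, 0))).trans (mem_closedBall_iff_norm.1 hy)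
        have q3 := (hs y.1 (by linarith only [d3, q2, norm_sub_norm_le y.1 x0])).2.2
        exact (norm_sub_le_norm_sub_add_norm_sub _ (D2 F y) B).trans
          (by linarith only [d2, q1, q3, hF, hh, norm_D2_addPot_sub hF hh y])
      · have q1 := (hz t ht).2.2
        rw [norm_sub_rev, norm_sub_rev (z1 t)] at q1
        have q2 := norm_nonneg (z2 t - z1 t)
        exact max_le (show ‖z2 t - z1 t‖ ≤ (Λ + 1) * ‖z2 t - z1 t‖ by linarith only [hΛ, q2, mul_nonneg_of_nonpos_of_nonpos (Mathlib.Tactic.Linarith.sub_nonpos_of_le hΛ) (Mathlib.Tactic.Linarith.sub_nonpos_of_le q2)])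
          (show ‖deriv z2 t - deriv z1 t‖ ≤ (Λ + 1) * ‖z2 t - z1 t‖ by linarith only [q1, q2])
      · rw [mul_pow, mul_comm]
        refine mul_le_mul_of_nonneg_right ?_ (sq_nonneg _)
        rw [div_mul_eq_mul_div, div_pow, div_le_iff₀ (by positivity)]
        linarith only [ht, mul_nonneg (sq_nonneg κ) (mul_nonneg (sub_nonneg.2 ht.1) (sub_nonneg.2 ht.2)), sq_nonneg κ]
  have i1 : IntervalIntegrable (fun t => Real.exp (κ / N * (N ^ 2 - t ^ 2)) ^ 2 *
      ‖(ph z2 t - ph z1 t).1‖ ^ 2) volume (-N) N :=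
    ContinuousOn.intervalIntegrable_of_Icc (by linarith only [hn'])
      (ContinuousOn.mul (by fun_prop) (cW.fst.norm.pow 2))
  have k1 := intervalIntegral.integral_mono_interval (by linarith only [hn'] : -N ≤ 0) zero_le_one hn'
    (ae_of_all _ fun t => by positivity) i1
  have k2 := intervalIntegral.integral_mono_on zero_le_one
    (intervalIntegrable_const (c := (Real.exp (κ * N - κ - Λ) * ‖z2 0 - z1 0‖) ^ 2))
    (i1.mono_set (uIcc_subset_uIcc (mem_uIcc_of_le (by linarith only [hn']) (by linarith only [hn']))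
      (mem_uIcc_of_le (by linarith only [hn']) hn'))) fun t ht => by
      rw [← mul_pow]
      refine pow_le_pow_left₀ (by positivity) ?_ 2
      have q1 := gron_lip hΛ (fun t ht => (o1 t ht).1) (fun t ht => (o2 t ht).1)
        (fun t ht => (hz t ht).2.2) t ⟨by linarith only [hn', ht, ht.1], by linarith only [hn', ht, ht.2]⟩ 0
        ⟨by linarith only [hn'], by linarith only [hn']⟩
      rw [norm_sub_rev, norm_sub_rev (z1 t), zero_sub, abs_neg, abs_of_nonneg ht.1] at q1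
      refine (mul_le_mul_of_nonneg_left q1 (Real.exp_pos _).le).trans ?_
      rw [← mul_assoc, ← Real.exp_add]
      refine mul_le_mul_of_nonneg_right (Real.exp_le_exp.2 ?_) (norm_nonneg _)
      have q2 : κ * N - κ ≤ κ / N * (N ^ 2 - t ^ 2) := by
        rw [div_mul_eq_mul_div, le_div_iff₀ (by linarith only [hn'])]
        linarith only [hκ, hn', ht, mul_nonneg hκ.le (show 0 ≤ N - t ^ 2 by nlinarith [ht.1, ht.2]), mul_nonneg_of_nonpos_of_nonpos (Mathlib.Tactic.Linarith.sub_nonpos_of_le ht.left) (Mathlib.Tactic.Linarith.sub_nonpos_of_le ht.right)]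
      linarith only [q2, hΛ, ht, mul_nonneg hΛ (sub_nonneg.2 ht.2)]
  rw [intervalIntegral.integral_const, sub_zero, one_smul] at k2
  have k3 : Real.exp (κ * N - κ - Λ) * ‖z2 0 - z1 0‖ ≤ √(32 / κ) * Real.exp (κ / 2 * N) := by
    refine le_of_sq_le_sq ?_ (by positivity)
    rw [mul_pow √_, Real.sq_sqrt (by positivity), ← Real.exp_nat_mul, div_mul_eq_mul_div,
      le_div_iff₀ hκ, show (2 : ℕ) * (κ / 2 * N) = κ * N by push_cast; ring]
    linarith only [hκ, key, k1, k2, Real.add_one_le_exp (κ * N), mul_nonneg_of_nonpos_of_nonpos (le_of_lt (Mathlib.Tactic.Linarith.sub_neg_of_lt hκ)) (Mathlib.Tactic.Linarith.sub_nonpos_of_le key), mul_nonneg_of_nonpos_of_nonpos (le_of_lt (Mathlib.Tactic.Linarith.sub_neg_of_lt hκ)) (Mathlib.Tactic.Linarith.sub_nonpos_of_le k1), mul_nonneg_of_nonpos_of_nonpos (le_of_lt (Mathlib.Tactic.Linarith.sub_neg_of_lt hκ)) (Mathlib.Tactic.Linarith.sub_nonpos_of_le k2)]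
  have k4 := mul_le_mul_of_nonneg_left k3 (Real.exp_pos (-(κ * N - κ - Λ))).le
  rw [← mul_assoc, ← Real.exp_add, neg_add_cancel, Real.exp_zero, one_mul, mul_left_comm,
    ← Real.exp_add, show -(κ * N - κ - Λ) + κ / 2 * N = κ + Λ + -(κ / 2 * N) by ring,
    Real.exp_add] at k4
  linarith only [k4, Real.exp_pos (-(κ / 2 * N))]

end Pool.Agent.Work.MP_1ce82a_an
end
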